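import Mathlib

set_option autoImplicit false

/-!
# Brun's pure sieve, in abstract form
-/

namespace Pool.Agent.V11272.EK

open Finset

variable {ι : Type*} [DecidableEq ι]

/-- elementary symmetric functions of `x` over `s` -/
noncomputable def es (x : ι → ℝ) (s : Finset ι) (j : ℕ) : ℝ :=
  ∑ J ∈ s.powersetCard j, ∏ i ∈ J, x i

theorem es_zero (x : ι → ℝ) (s : Finset ι) : es x s 0 = 1 := by
  simp [es]

theorem es_empty_succ (x : ι → ℝ) (j : ℕ) : es x ∅ (j + 1) = 0 := by
  unfold es
  rw [Finset.powersetCard_eq_empty.2 (by simp)]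
  simp

theorem es_insert (x : ι → ℝ) {s : Finset ι} {a : ι} (ha : a ∉ s) (j : ℕ) :
    es x (insert a s) (j + 1) = es x s (j + 1) + x a * es x s j := by
  unfold es
  rw [Finset.powersetCard_succ_insert ha, Finset.sum_union]
  · congr 1
    rw [Finset.sum_image, Finset.mul_sum]
    · apply Finset.sum_congr rfl
      intro J hJ
      rw [Finset.mem_powersetCard] at hJ
      rw [Finset.prod_insert (fun h => ha (hJ.1 h))]
    · intro J hJ K hK h
      rw [Finset.mem_coe, Finset.mem_powersetCard] at hJ hK
      have h1 : a ∉ J := fun h => ha (hJ.1 h)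
      have h2 : a ∉ K := fun h => ha (hK.1 h)
      have h3 : (insert a J).erase a = (insert a K).erase a := by rw [h]
      rwa [Finset.erase_insert h1, Finset.erase_insert h2] at h3
  · rw [Finset.disjoint_left]
    intro J hJ hK
    rw [Finset.mem_powersetCard] at hJ
    rw [Finset.mem_image] at hK
    obtain ⟨K, -, rfl⟩ := hK
    exact ha (hJ.1 (Finset.mem_insert_self a K))

theorem es_nonneg {x : ι → ℝ} {s : Finset ι} (hx : ∀ i ∈ s, 0 ≤ x i) (j : ℕ) : 0 ≤ es x s j := by
  unfold es
  apply Finset.sum_nonneg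
  intro J hJ
  rw [Finset.mem_powersetCard] at hJ
  exact Finset.prod_nonneg fun i hi => hx i (hJ.1 hi)

/-- truncated alternating sums -/
noncomputable def al (x : ι → ℝ) (s : Finset ι) (D : ℕ) : ℝ :=
  ∑ j ∈ range D, (-1) ^ j * es x s j

theorem al_insert (x : ι → ℝ) {s : Finset ι} {a : ι} (ha : a ∉ s) (D : ℕ) :
    al x (insert a s) (D + 1) = al x s (D + 1) - x a * al x s D := by
  unfold al
  rw [Finset.sum_range_succ', Finset.sum_range_succ', es_zero, es_zero, Finset.mul_sum]
  have h : ∑ k ∈ range D, (-1 : ℝ) ^ (k + 1) * es x (insert a s) (k + 1) =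
      ∑ k ∈ range D, (-1 : ℝ) ^ (k + 1) * es x s (k + 1) -
        ∑ k ∈ range D, x a * ((-1) ^ k * es x s k) := by
    rw [← Finset.sum_sub_distrib]
    apply Finset.sum_congr rfl
    intro k _
    rw [es_insert x ha]
    ring
  rw [h]
  ring

/-- the truncated alternating sums alternate around the product `∏ (1 - x)` -/
theorem bonf {x : ι → ℝ} : ∀ {s : Finset ι}, (∀ i ∈ s, 0 ≤ x i) → (∀ i ∈ s, x i ≤ 1) → ∀ D : ℕ,
    0 ≤ (-1) ^ D * (∏ i ∈ s, (1 - x i) - al x s D) ∧
      (-1) ^ D * (∏ i ∈ s, (1 - x i) - al x s D) ≤ es x s D := by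
  intro s
  induction s using Finset.induction_on with
  | empty =>
    intro _ _ D
    cases D with
    | zero => simp [al, es]
    | succ D =>
      have h1 : al x ∅ (D + 1) = 1 := by
        unfold al
        rw [Finset.sum_range_succ', es_zero]
        rw [Finset.sum_eq_zero]
        · simp
        · intro k _
          rw [es_empty_succ, mul_zero]
      rw [h1, es_empty_succ]
      simp
  | insert a s ha ih =>
    intro h0 h1 D
    have h0' : ∀ i ∈ s, 0 ≤ x i := fun i hi => h0 i (Finset.mem_insert_of_mem hi)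
    have h1' : ∀ i ∈ s, x i ≤ 1 := fun i hi => h1 i (Finset.mem_insert_of_mem hi)
    have ha0 : 0 ≤ x a := h0 a (Finset.mem_insert_self a s)
    have ha1 : x a ≤ 1 := h1 a (Finset.mem_insert_self a s)
    cases D with
    | zero =>
      simp only [pow_zero, one_mul, al, Finset.range_zero, Finset.sum_empty, sub_zero, es_zero]
      constructor
      · apply Finset.prod_nonneg
        intro i hi
        linarith [h1 i hi]
      · apply Finset.prod_le_one
        · intro i hi
          linarith [h1 i hi]
        · intro i hi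
          linarith [h0 i hi]
    | succ D =>
      rw [Finset.prod_insert ha, al_insert x ha, es_insert x ha]
      obtain ⟨i1, i2⟩ := ih h0' h1' (D + 1)
      obtain ⟨i3, i4⟩ := ih h0' h1' D
      have h2 : (-1 : ℝ) ^ (D + 1) * ((1 - x a) * ∏ i ∈ s, (1 - x i) - (al x s (D + 1) - x a * al x s D)) =
          (-1 : ℝ) ^ (D + 1) * (∏ i ∈ s, (1 - x i) - al x s (D + 1)) +
            x a * ((-1 : ℝ) ^ D * (∏ i ∈ s, (1 - x i) - al x s D)) := by
        rw [pow_succ]
        ring
      rw [h2]
      constructor
      · have := mul_nonneg ha0 i3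
        linarith
      · have := mul_le_mul_of_nonneg_left i4 ha0
        linarith

theorem es_le {x : ι → ℝ} : ∀ {s : Finset ι}, (∀ i ∈ s, 0 ≤ x i) → ∀ j : ℕ,
    es x s j ≤ (∑ i ∈ s, x i) ^ j / (j.factorial : ℝ) := by
  intro s
  induction s using Finset.induction_on with
  | empty =>
    intro _ j
    cases j with
    | zero => simp [es]
    | succ j => rw [es_empty_succ]; simp
  | insert a s ha ih =>
    intro h0 j
    have h0' : ∀ i ∈ s, 0 ≤ x i := fun i hi => h0 i (Finset.mem_insert_of_mem hi)
    have ha0 : 0 ≤ x a := h0 a (Finset.mem_insert_self a s)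
    have hS : 0 ≤ ∑ i ∈ s, x i := Finset.sum_nonneg h0'
    cases j with
    | zero => simp [es_zero]
    | succ j =>
      rw [es_insert x ha, Finset.sum_insert ha]
      have i1 := ih h0' (j + 1)
      have i2 := mul_le_mul_of_nonneg_left (ih h0' j) ha0
      set S := ∑ i ∈ s, x i
      have h3 : S ^ (j + 1) + (j + 1 : ℝ) * (x a * S ^ j) ≤ (x a + S) ^ (j + 1) := by
        have := pow_add_mul_le_add_pow hS (by linarith : 0 ≤ 2 * S + x a) (j + 1)
        rw [Nat.add_sub_cancel] at this
        push_cast at this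
        rw [add_comm (x a) S]
        nlinarith
      have hf : (0 : ℝ) < (j.factorial : ℝ) := by positivity
      rw [Nat.factorial_succ, Nat.cast_mul, Nat.cast_add, Nat.cast_one]
      rw [Nat.factorial_succ, Nat.cast_mul, Nat.cast_add, Nat.cast_one] at i1
      rw [le_div_iff₀ (by positivity)]
      rw [le_div_iff₀ (by positivity)] at i1
      have h4 : x a * (S ^ j / (j.factorial : ℝ)) * (((j : ℝ) + 1) * (j.factorial : ℝ)) =
          (j + 1 : ℝ) * (x a * S ^ j) := by
        field_simp
      have h5 : x a * es x s j * (((j : ℝ) + 1) * (j.factorial : ℝ)) ≤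
          (j + 1 : ℝ) * (x a * S ^ j) := by
        rw [← h4]
        exact mul_le_mul_of_nonneg_right i2 (by positivity)
      nlinarith

end Pool.Agent.V11272.EK
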