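import Mathlib
import Pool.Agent.V11272.EK.Bonf

set_option autoImplicit false

/-!
# Counting integers in an interval in prescribed residue classes
-/

namespace Pool.Agent.V11272.EK

open Finset

/-- number of `m < M` with `P m` -/
noncomputable def cnt (P : ℕ → Prop) (M : ℕ) : ℕ := by
  classical exact ((range M).filter P).card

theorem cnt_eq (P : ℕ → Prop) [DecidablePred P] (M : ℕ) : cnt P M = ((range M).filter P).card := by
  unfold cnt
  congr

theorem cnt_mono (P : ℕ → Prop) {M N : ℕ} (h : M ≤ N) : cnt P M ≤ cnt P N := by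
  classical
  rw [cnt_eq, cnt_eq]
  exact Finset.card_le_card (Finset.filter_subset_filter _ (Finset.range_subset_range.2 h))

/-- `P` has period `q` -/
def Per (P : ℕ → Prop) (q : ℕ) : Prop := ∀ m : ℕ, P m ↔ P (m % q)

theorem Per.add {P : ℕ → Prop} {q : ℕ} (h : Per P q) (t m : ℕ) : P (q * t + m) ↔ P m := by
  rw [h, h m, Nat.mul_add_mod]

theorem cnt_add (P : ℕ → Prop) {q : ℕ} (h : Per P q) (t r : ℕ) :
    cnt P (q * t + r) = cnt P (q * t) + cnt P r := by
  classical
  rw [cnt_eq, cnt_eq, cnt_eq, ← Nat.count_eq_card_filter_range, ← Nat.count_eq_card_filter_range,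
    ← Nat.count_eq_card_filter_range, Nat.count_add]
  congr 1
  have h1 : (fun k => P (q * t + k)) = P := by
    funext k
    exact propext (h.add t k)
  simp only [h1]

theorem cnt_mul (P : ℕ → Prop) {q : ℕ} (h : Per P q) (t : ℕ) : cnt P (q * t) = t * cnt P q := by
  induction t with
  | zero => simp [cnt]
  | succ t ih =>
    rw [Nat.mul_succ, cnt_add P h, ih]
    ring

theorem cnt_approx (P : ℕ → Prop) {q : ℕ} (hq : 0 < q) (h : Per P q) (M : ℕ) :
    |(cnt P M : ℝ) - M * ((cnt P q : ℝ) / q)| ≤ cnt P q := by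
  have h1 : M = q * (M / q) + M % q := (Nat.div_add_mod M q).symm
  have h2 : cnt P M = (M / q) * cnt P q + cnt P (M % q) := by
    conv_lhs => rw [h1]
    rw [cnt_add P h, cnt_mul P h]
  have h3 : cnt P (M % q) ≤ cnt P q := cnt_mono P (Nat.mod_lt M hq).le
  have hq' : (0 : ℝ) < q := by exact_mod_cast hq
  have h4 : (M : ℝ) = q * ((M / q : ℕ) : ℝ) + ((M % q : ℕ) : ℝ) := by exact_mod_cast h1
  have h5 : ((M % q : ℕ) : ℝ) ≤ q := by exact_mod_cast (Nat.mod_lt M hq).le
  have h6 : (cnt P (M % q) : ℝ) ≤ cnt P q := by exact_mod_cast h3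
  have h7 : (M : ℝ) * ((cnt P q : ℝ) / q) =
      ((M / q : ℕ) : ℝ) * cnt P q + ((M % q : ℕ) : ℝ) / q * cnt P q := by
    rw [h4]
    field_simp
  have h8 : (0 : ℝ) ≤ ((M % q : ℕ) : ℝ) / q * cnt P q := by positivity
  have h9 : ((M % q : ℕ) : ℝ) / q * cnt P q ≤ 1 * cnt P q := by
    apply mul_le_mul_of_nonneg_right _ (Nat.cast_nonneg _)
    rw [div_le_one hq']
    exact h5
  have h10 : (0 : ℝ) ≤ (cnt P (M % q) : ℝ) := Nat.cast_nonneg _
  rw [h7, h2]
  push_cast
  rw [abs_le]
  constructor <;> linarith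

theorem per_mul {P R : ℕ → Prop} {a b : ℕ} (hP : Per P a) (hR : Per R b) :
    Per (fun m => P m ∧ R m) (a * b) := by
  intro m
  show P m ∧ R m ↔ P (m % (a * b)) ∧ R (m % (a * b))
  rw [hP m, hR m, hP (m % (a * b)), hR (m % (a * b)), Nat.mod_mul_right_mod, Nat.mod_mul_left_mod]

theorem cnt_crt {P R : ℕ → Prop} {a b : ℕ} (ha : a ≠ 0) (hb : b ≠ 0) (co : Nat.Coprime a b)
    (hP : Per P a) (hR : Per R b) :
    cnt (fun m => P m ∧ R m) (a * b) = cnt P a * cnt R b := by
  classical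
  rw [cnt_eq, cnt_eq, cnt_eq, ← Finset.card_product]
  apply Finset.card_bij' (fun m _ => (m % a, m % b))
    (fun (x : ℕ × ℕ) _ => (Nat.chineseRemainder co x.1 x.2 : ℕ))
  · intro m hm
    rw [Finset.mem_filter, Finset.mem_range] at hm
    rw [Finset.mem_product, Finset.mem_filter, Finset.mem_filter, Finset.mem_range, Finset.mem_range]
    exact ⟨⟨Nat.mod_lt _ (Nat.pos_of_ne_zero ha), (hP m).1 hm.2.1⟩,
      ⟨Nat.mod_lt _ (Nat.pos_of_ne_zero hb), (hR m).1 hm.2.2⟩⟩
  · intro x hx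
    rw [Finset.mem_product, Finset.mem_filter, Finset.mem_filter, Finset.mem_range, Finset.mem_range] at hx
    rw [Finset.mem_filter, Finset.mem_range]
    refine ⟨Nat.chineseRemainder_lt_mul co _ _ ha hb, ?_, ?_⟩
    · have h1 := (Nat.chineseRemainder co x.1 x.2).2.1
      rw [hP, h1, Nat.mod_eq_of_lt hx.1.1]
      exact hx.1.2
    · have h1 := (Nat.chineseRemainder co x.1 x.2).2.2
      rw [hR, h1, Nat.mod_eq_of_lt hx.2.1]
      exact hx.2.2
  · intro m hm
    rw [Finset.mem_filter, Finset.mem_range] at hm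
    have h1 := (Nat.chineseRemainder co (m % a) (m % b)).2
    have h2 : (Nat.chineseRemainder co (m % a) (m % b) : ℕ) ≡ m [MOD a * b] := by
      rw [← Nat.modEq_and_modEq_iff_modEq_mul co]
      exact ⟨h1.1.trans (Nat.mod_modEq m a), h1.2.trans (Nat.mod_modEq m b)⟩
    exact Nat.ModEq.eq_of_lt_of_lt h2 (Nat.chineseRemainder_lt_mul co _ _ ha hb) hm.1
  · intro x hx
    rw [Finset.mem_product, Finset.mem_filter, Finset.mem_filter, Finset.mem_range, Finset.mem_range] at hx
    have h1 := (Nat.chineseRemainder co x.1 x.2).2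
    ext
    · exact (Nat.mod_eq_of_modEq h1.1 hx.1.1)
    · exact (Nat.mod_eq_of_modEq h1.2 hx.2.1)

/-- product structure of the local counts -/
theorem cnt_prod (B : ℕ → ℕ → Prop) : ∀ J : Finset ℕ, (∀ p ∈ J, p.Prime) →
    (∀ p ∈ J, Per (B p) p) →
    Per (fun m => ∀ p ∈ J, B p m) (∏ p ∈ J, p) ∧
      cnt (fun m => ∀ p ∈ J, B p m) (∏ p ∈ J, p) = ∏ p ∈ J, cnt (B p) p := by
  intro J
  induction J using Finset.induction_on with
  | empty =>
    intro _ _
    constructor
    · intro m; simp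
    · simp [cnt]
  | insert a J ha ih =>
    intro hp hB
    have hp' : ∀ p ∈ J, p.Prime := fun p h => hp p (Finset.mem_insert_of_mem h)
    have hB' : ∀ p ∈ J, Per (B p) p := fun p h => hB p (Finset.mem_insert_of_mem h)
    obtain ⟨i1, i2⟩ := ih hp' hB'
    have hap : a.Prime := hp a (Finset.mem_insert_self a J)
    have hBa := hB a (Finset.mem_insert_self a J)
    have h1 : (fun m => ∀ p ∈ insert a J, B p m) = (fun m => B a m ∧ ∀ p ∈ J, B p m) := by
      funext m
      simp only [Finset.forall_mem_insert]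
    have hco : Nat.Coprime a (∏ p ∈ J, p) := by
      apply Nat.Coprime.prod_right
      intro p h
      rw [Nat.coprime_primes hap (hp' p h)]
      rintro rfl
      exact ha h
    rw [h1, Finset.prod_insert ha, Finset.prod_insert ha]
    refine ⟨per_mul hBa i1, ?_⟩
    rw [cnt_crt hap.ne_zero (Finset.prod_ne_zero_iff.2 fun p h => (hp' p h).ne_zero) hco hBa i1, i2]

/-- **Brun's pure sieve** for arbitrary sets of residue classes. -/
theorem brun (s : Finset ℕ) (hs : ∀ p ∈ s, p.Prime) (B : ℕ → ℕ → Prop)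
    (hB : ∀ p ∈ s, Per (B p) p) (hB1 : ∀ p ∈ s, cnt (B p) p ≤ p) (h M : ℕ) :
    (M : ℝ) * (∏ p ∈ s, (1 - (cnt (B p) p : ℝ) / p) - es (fun p => (cnt (B p) p : ℝ) / p) s (2 * h)) -
      ∑ j ∈ range (2 * h), es (fun p => (cnt (B p) p : ℝ)) s j ≤
    cnt (fun m => ∀ p ∈ s, ¬ B p m) M := by
  classical
  set y : ℕ → ℝ := fun p => (cnt (B p) p : ℝ) / p with hy
  have hy0 : ∀ p ∈ s, 0 ≤ y p := fun p _ => by positivity
  have hy1 : ∀ p ∈ s, y p ≤ 1 := by
    intro p hp
    have : (0 : ℝ) < p := by exact_mod_cast (hs p hp).pos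
    rw [hy]
    show (cnt (B p) p : ℝ) / p ≤ 1
    rw [div_le_one this]
    exact_mod_cast hB1 p hp
  -- pointwise inequality
  have hpt : ∀ m : ℕ, al (fun p => if B p m then (1 : ℝ) else 0) s (2 * h) ≤
      if (∀ p ∈ s, ¬ B p m) then 1 else 0 := by
    intro m
    have h1 := (bonf (x := fun p => if B p m then (1 : ℝ) else 0) (s := s)
      (fun i _ => by split_ifs <;> norm_num)
      (fun i _ => by split_ifs <;> norm_num) (2 * h)).1
    rw [pow_mul, neg_one_sq, one_pow, one_mul] at h1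
    refine le_trans (by linarith) (le_of_eq (a := ∏ p ∈ s, (1 - (if B p m then (1 : ℝ) else 0))) ?_)
    split_ifs with hc
    · apply Finset.prod_eq_one
      intro p hp
      rw [if_neg (hc p hp), sub_zero]
    · push Not at hc
      obtain ⟨p, hp, hb⟩ := hc
      apply Finset.prod_eq_zero hp
      rw [if_pos hb, sub_self]
  have hsum : ∑ m ∈ range M, al (fun p => if B p m then (1 : ℝ) else 0) s (2 * h) ≤
      cnt (fun m => ∀ p ∈ s, ¬ B p m) M := by
    refine (Finset.sum_le_sum fun m _ => hpt m).trans (le_of_eq ?_)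
    rw [Finset.sum_boole, cnt_eq]
  -- evaluate
  have hev : ∀ j : ℕ, ∑ m ∈ range M, es (fun p => if B p m then (1 : ℝ) else 0) s j =
      ∑ J ∈ s.powersetCard j, (cnt (fun m => ∀ p ∈ J, B p m) M : ℝ) := by
    intro j
    unfold es
    rw [Finset.sum_comm]
    apply Finset.sum_congr rfl
    intro J hJ
    rw [cnt_eq, ← Finset.sum_boole]
    apply Finset.sum_congr rfl
    intro m _
    split_ifs with hc
    · apply Finset.prod_eq_one
      intro p hp
      rw [if_pos (hc p hp)]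
    · push Not at hc
      obtain ⟨p, hp, hb⟩ := hc
      apply Finset.prod_eq_zero hp
      rw [if_neg hb]
  have hJ : ∀ j : ℕ, |∑ J ∈ s.powersetCard j, (cnt (fun m => ∀ p ∈ J, B p m) M : ℝ) - M * es y s j| ≤
      es (fun p => (cnt (B p) p : ℝ)) s j := by
    intro j
    unfold es
    rw [Finset.mul_sum, ← Finset.sum_sub_distrib]
    refine (Finset.abs_sum_le_sum_abs _ _).trans (Finset.sum_le_sum fun J hJ => ?_)
    rw [Finset.mem_powersetCard] at hJ
    have hpJ : ∀ p ∈ J, p.Prime := fun p hp => hs p (hJ.1 hp)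
    have hBJ : ∀ p ∈ J, Per (B p) p := fun p hp => hB p (hJ.1 hp)
    obtain ⟨i1, i2⟩ := cnt_prod B J hpJ hBJ
    have h1 := cnt_approx (fun m => ∀ p ∈ J, B p m)
      (Finset.prod_pos fun p hp => (hpJ p hp).pos) i1 M
    rw [i2] at h1
    push_cast at h1
    rw [hy]
    rwa [Finset.prod_div_distrib]
  have hal : ∑ m ∈ range M, al (fun p => if B p m then (1 : ℝ) else 0) s (2 * h) ≥
      M * al y s (2 * h) - ∑ j ∈ range (2 * h), es (fun p => (cnt (B p) p : ℝ)) s j := by
    unfold al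
    rw [Finset.sum_comm, Finset.mul_sum, ← Finset.sum_sub_distrib]
    apply Finset.sum_le_sum
    intro j _
    rw [← Finset.mul_sum, hev]
    have h1 := abs_le.1 (hJ j)
    rcases neg_one_pow_eq_or ℝ j with h2 | h2
    · rw [h2]; linarith [h1.1]
    · rw [h2]; linarith [h1.2]
  have hb := (bonf hy0 hy1 (2 * h)).2
  rw [pow_mul, neg_one_sq, one_pow, one_mul] at hb
  have hM : (0 : ℝ) ≤ M := Nat.cast_nonneg M
  have h3 : (M : ℝ) * (∏ p ∈ s, (1 - y p) - es y s (2 * h)) ≤ M * al y s (2 * h) :=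
    mul_le_mul_of_nonneg_left (by linarith) hM
  linarith

end Pool.Agent.V11272.EK
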