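import Mathlib

set_option autoImplicit false

/-!
# The number of divisors of `n` is at most `exp (2 log n / log log n)`
-/

namespace Pool.Agent.V11272.EK

open Finset Filter

theorem div_le {n : ℕ} (hn : n ≠ 0) {y : ℕ} (hy : 2 ≤ y) :
    (n.divisors.card : ℝ) ≤ ((Nat.log 2 n : ℝ) + 1) ^ (y + 1) * (n : ℝ) ^ (Real.log 2 / Real.log y) := by
  have hly : 0 < Real.log y := Real.log_pos (by exact_mod_cast hy)
  set c : ℝ := Real.log 2 / Real.log y with hc
  have hc0 : 0 ≤ c := div_nonneg (Real.log_nonneg (by norm_num)) hly.le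
  rw [Nat.card_divisors hn, Nat.cast_prod,
    ← Finset.prod_filter_mul_prod_filter_not n.primeFactors (fun p => p ≤ y)]
  have hv : ∀ p ∈ n.primeFactors, n.factorization p ≤ Nat.log 2 n := by
    intro p hp
    have hpp := Nat.prime_of_mem_primeFactors hp
    apply Nat.le_log_of_pow_le (by norm_num)
    exact (Nat.pow_le_pow_left hpp.two_le _).trans (Nat.ordProj_le p hn)
  apply mul_le_mul
  · have h1 : ∏ p ∈ n.primeFactors with p ≤ y, (((n.factorization p + 1 : ℕ)) : ℝ) ≤
        ∏ p ∈ n.primeFactors with p ≤ y, ((Nat.log 2 n : ℝ) + 1) := by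
      apply Finset.prod_le_prod
      · intro p _; positivity
      · intro p hp
        rw [Finset.mem_filter] at hp
        have := hv p hp.1
        push_cast
        have h2 : (n.factorization p : ℝ) ≤ Nat.log 2 n := by exact_mod_cast this
        linarith
    refine h1.trans ?_
    rw [Finset.prod_const]
    apply pow_le_pow_right₀
    · have : (0 : ℝ) ≤ Nat.log 2 n := Nat.cast_nonneg _
      linarith
    · have h3 : (n.primeFactors.filter (fun p => p ≤ y)) ⊆ range (y + 1) := by
        intro p hp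
        rw [Finset.mem_filter] at hp
        rw [Finset.mem_range]
        omega
      simpa using Finset.card_le_card h3
  · have h1 : ∏ p ∈ n.primeFactors with ¬ p ≤ y, (((n.factorization p + 1 : ℕ)) : ℝ) ≤
        ∏ p ∈ n.primeFactors with ¬ p ≤ y, ((p : ℝ) ^ (n.factorization p)) ^ c := by
      apply Finset.prod_le_prod
      · intro p _; positivity
      · intro p hp
        rw [Finset.mem_filter] at hp
        have hpp := Nat.prime_of_mem_primeFactors hp.1
        have hp0 : (0 : ℝ) < p := by exact_mod_cast hpp.pos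
        have h2 : ((n.factorization p + 1 : ℕ) : ℝ) ≤ (2 : ℝ) ^ (n.factorization p) := by
          exact_mod_cast Nat.lt_two_pow_self
        refine h2.trans ?_
        rw [← Real.rpow_natCast, ← Real.rpow_natCast, ← Real.rpow_mul hp0.le]
        rw [Real.rpow_def_of_pos (by norm_num : (0 : ℝ) < 2), Real.rpow_def_of_pos hp0]
        apply Real.exp_le_exp.2
        have h3 : Real.log y ≤ Real.log p := by
          apply Real.log_le_log
          · exact_mod_cast (by omega : 0 < y)
          · exact_mod_cast (by omega : y ≤ p)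
        have h4 : Real.log 2 = c * Real.log y := by
          rw [hc]; field_simp
        rw [h4]
        have h5 : (0 : ℝ) ≤ n.factorization p := Nat.cast_nonneg _
        have h6 : c * Real.log y ≤ c * Real.log p := mul_le_mul_of_nonneg_left h3 hc0
        nlinarith
    refine h1.trans ?_
    have h2 : ∏ p ∈ n.primeFactors with ¬ p ≤ y, ((p : ℝ) ^ (n.factorization p)) ^ c ≤
        ∏ p ∈ n.primeFactors, ((p : ℝ) ^ (n.factorization p)) ^ c := by
      rw [← Finset.prod_filter_mul_prod_filter_not n.primeFactors (fun p => p ≤ y)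
        (fun p => ((p : ℝ) ^ (n.factorization p)) ^ c)]
      apply le_mul_of_one_le_left (Finset.prod_nonneg fun p _ => by positivity)
      rw [← Finset.prod_const_one (s := n.primeFactors.filter (fun p => p ≤ y))]
      apply Finset.prod_le_prod
      · intro p _; norm_num
      · intro p hp
        rw [Finset.mem_filter] at hp
        apply Real.one_le_rpow _ hc0
        apply one_le_pow₀
        exact_mod_cast (Nat.prime_of_mem_primeFactors hp.1).one_le
    refine h2.trans (le_of_eq ?_)
    rw [Real.finsetProd_rpow]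
    · congr 1
      have h3 := Nat.prod_factorization_pow_eq_self hn
      conv_rhs => rw [← h3]
      rw [Finsupp.prod, Nat.support_factorization]
      push_cast
      rfl
    · intro p _; positivity
  · apply Finset.prod_nonneg
    intro p _; positivity
  · positivity

/-- `Nat.log 2 n ≤ 2 log n` -/
theorem natlog_le {n : ℕ} (hn : n ≠ 0) : (Nat.log 2 n : ℝ) ≤ 2 * Real.log n := by
  have h1 : 2 ^ Nat.log 2 n ≤ n := Nat.pow_log_le_self 2 hn
  have h2 : Real.log ((2 : ℝ) ^ Nat.log 2 n) ≤ Real.log n := by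
    apply Real.log_le_log (by positivity)
    exact_mod_cast h1
  rw [Real.log_pow] at h2
  have h3 : (0.6931471803 : ℝ) < Real.log 2 := Real.log_two_gt_d9
  have h4 : (0 : ℝ) ≤ Nat.log 2 n := Nat.cast_nonneg _
  nlinarith

theorem tlog : Tendsto (fun n : ℕ => Real.log n) atTop atTop :=
  Real.tendsto_log_atTop.comp tendsto_natCast_atTop_atTop

theorem tloglog : Tendsto (fun n : ℕ => Real.log (Real.log n)) atTop atTop :=
  Real.tendsto_log_atTop.comp tlog

/-- the maximal order of the divisor function -/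
theorem div_bound : ∀ᶠ n : ℕ in atTop,
    (n.divisors.card : ℝ) ≤ Real.exp (2 * Real.log n / Real.log (Real.log n)) := by
  have e1 := tlog.eventually_ge_atTop (Real.exp 100)
  -- (√L + 2) log (2L + 1) ≤ (1/2) L / log L
  have e2 : ∀ᶠ L : ℝ in atTop, (Real.sqrt L + 2) * Real.log (2 * L + 1) * Real.log L ≤ 1 / 2 * L := by
    have h1 : ∀ᶠ L : ℝ in atTop, Real.log L ≤ 1 / 100 * L ^ (1 / 8 : ℝ) := by
      have := (isLittleO_log_rpow_atTop (by norm_num : (0 : ℝ) < 1 / 8)).bound
        (by norm_num : (0 : ℝ) < 1 / 100)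
      filter_upwards [this, eventually_ge_atTop (1 : ℝ)] with L hL hL1
      rw [Real.norm_eq_abs, Real.norm_eq_abs, abs_of_nonneg (Real.log_nonneg hL1),
        abs_of_nonneg (by positivity)] at hL
      exact hL
    filter_upwards [h1, eventually_ge_atTop (16 : ℝ)] with L hL hL1
    have hL0 : (0 : ℝ) < L := by linarith
    have hlog0 : 0 ≤ Real.log L := Real.log_nonneg (by linarith)
    have a1 : Real.log (2 * L + 1) ≤ 2 * Real.log L := by
      rw [← Real.log_rpow hL0]
      apply Real.log_le_log (by linarith)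
      rw [Real.rpow_two]
      nlinarith
    have a2 : Real.sqrt L + 2 ≤ 2 * Real.sqrt L := by
      have : (4 : ℝ) ≤ Real.sqrt L := by
        rw [show (4 : ℝ) = Real.sqrt 16 by
          rw [show (16 : ℝ) = 4 ^ 2 by norm_num]; exact (Real.sqrt_sq (by norm_num)).symm]
        exact Real.sqrt_le_sqrt hL1
      linarith
    have a3 : Real.sqrt L * (L ^ (1 / 8 : ℝ) * L ^ (1 / 8 : ℝ)) ≤ L := by
      rw [Real.sqrt_eq_rpow, ← Real.rpow_add hL0, ← Real.rpow_add hL0]
      conv_rhs => rw [← Real.rpow_one L]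
      exact Real.rpow_le_rpow_of_exponent_le (by linarith) (by norm_num)
    have hs0 : 0 ≤ Real.sqrt L := Real.sqrt_nonneg L
    have hr0 : 0 ≤ L ^ (1 / 8 : ℝ) := by positivity
    have a4 : Real.log L * Real.log L ≤ (1 / 100 * L ^ (1 / 8 : ℝ)) * (1 / 100 * L ^ (1 / 8 : ℝ)) :=
      mul_le_mul hL hL hlog0 (by positivity)
    calc (Real.sqrt L + 2) * Real.log (2 * L + 1) * Real.log L
        ≤ (2 * Real.sqrt L) * (2 * Real.log L) * Real.log L := by
          apply mul_le_mul_of_nonneg_right _ hlog0
          exact mul_le_mul a2 a1 (Real.log_nonneg (by linarith)) (by positivity)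
      _ = 4 * Real.sqrt L * (Real.log L * Real.log L) := by ring
      _ ≤ 4 * Real.sqrt L * ((1 / 100 * L ^ (1 / 8 : ℝ)) * (1 / 100 * L ^ (1 / 8 : ℝ))) := by
          apply mul_le_mul_of_nonneg_left a4 (by positivity)
      _ = 4 / 10000 * (Real.sqrt L * (L ^ (1 / 8 : ℝ) * L ^ (1 / 8 : ℝ))) := by ring
      _ ≤ 4 / 10000 * L := by
          apply mul_le_mul_of_nonneg_left a3 (by norm_num)
      _ ≤ 1 / 2 * L := by nlinarith
  have e2' := tlog.eventually e2
  filter_upwards [e1, e2', eventually_ge_atTop 3] with n h1 h2 hn3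
  have hn : n ≠ 0 := by omega
  set L := Real.log n with hL
  set l := Real.log L with hl
  have hLpos : 0 < L := lt_of_lt_of_le (Real.exp_pos _) h1
  have hl100 : 100 ≤ l := by
    rw [hl, Real.le_log_iff_exp_le hLpos]
    exact h1
  have hL1 : 10000 ≤ L := by
    have h3 : (100 : ℝ) ^ 2 / (Nat.factorial 2 : ℝ) ≤ Real.exp 100 :=
      Real.pow_div_factorial_le_exp 100 (by norm_num) 2
    have h4 : (100 : ℝ) ^ 3 / (Nat.factorial 3 : ℝ) ≤ Real.exp 100 :=
      Real.pow_div_factorial_le_exp 100 (by norm_num) 3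
    have h5 : (Nat.factorial 3 : ℝ) = 6 := by norm_num [Nat.factorial]
    rw [h5] at h4
    have : (10000 : ℝ) ≤ 100 ^ 3 / 6 := by norm_num
    linarith
  set y : ℕ := ⌊Real.sqrt L⌋₊ with hy
  have hsq : (100 : ℝ) ≤ Real.sqrt L := by
    rw [show (100 : ℝ) = Real.sqrt 10000 by
      rw [show (10000 : ℝ) = 100 ^ 2 by norm_num]; exact (Real.sqrt_sq (by norm_num)).symm]
    exact Real.sqrt_le_sqrt hL1
  have hy1 : (y : ℝ) ≤ Real.sqrt L := Nat.floor_le (Real.sqrt_nonneg L)
  have hy2 : Real.sqrt L < y + 1 := Nat.lt_floor_add_one _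
  have hy3 : 2 ≤ y := by
    have : (2 : ℝ) ≤ y := by linarith
    exact_mod_cast this
  have hlogy : l / 2 - Real.log 2 ≤ Real.log y := by
    have h3 : Real.sqrt L / 2 ≤ y := by linarith
    have h4 : Real.log (Real.sqrt L / 2) ≤ Real.log y :=
      Real.log_le_log (by positivity) h3
    rw [Real.log_div (by positivity) (by norm_num), Real.log_sqrt hLpos.le] at h4
    exact h4
  have hlog2 : Real.log 2 < 0.6931471808 := Real.log_two_lt_d9
  have hlog2' : 0 < Real.log 2 := Real.log_pos (by norm_num)
  have hlogy0 : 0 < Real.log y := by linarith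
  have hexp : Real.log 2 / Real.log y ≤ 3 / 2 / l := by
    rw [div_le_div_iff₀ hlogy0 (by linarith)]
    nlinarith
  have hd := div_le hn hy3
  refine hd.trans ?_
  have h5 : ((Nat.log 2 n : ℝ) + 1) ^ (y + 1) ≤ Real.exp ((Real.sqrt L + 2) * Real.log (2 * L + 1)) := by
    have h6 : (Nat.log 2 n : ℝ) + 1 ≤ 2 * L + 1 := by
      have := natlog_le hn
      linarith
    have h7 : (0 : ℝ) < 2 * L + 1 := by linarith
    calc ((Nat.log 2 n : ℝ) + 1) ^ (y + 1) ≤ (2 * L + 1) ^ (y + 1) :=
          pow_le_pow_left₀ (by positivity) h6 _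
      _ = Real.exp (((y + 1 : ℕ) : ℝ) * Real.log (2 * L + 1)) := by
          rw [Real.exp_nat_mul, Real.exp_log h7]
      _ ≤ Real.exp ((Real.sqrt L + 2) * Real.log (2 * L + 1)) := by
          apply Real.exp_le_exp.2
          apply mul_le_mul_of_nonneg_right _ (Real.log_nonneg (by linarith))
          push_cast
          linarith
  have hn0 : (0 : ℝ) < n := by exact_mod_cast (by omega : 0 < n)
  have h8 : (n : ℝ) ^ (Real.log 2 / Real.log y) ≤ Real.exp (3 / 2 * L / l) := by
    rw [Real.rpow_def_of_pos hn0, ← hL]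
    apply Real.exp_le_exp.2
    calc L * (Real.log 2 / Real.log y) ≤ L * (3 / 2 / l) := mul_le_mul_of_nonneg_left hexp hLpos.le
      _ = 3 / 2 * L / l := by ring
  calc ((Nat.log 2 n : ℝ) + 1) ^ (y + 1) * (n : ℝ) ^ (Real.log 2 / Real.log y)
      ≤ Real.exp ((Real.sqrt L + 2) * Real.log (2 * L + 1)) * Real.exp (3 / 2 * L / l) :=
        mul_le_mul h5 h8 (by positivity) (by positivity)
    _ = Real.exp ((Real.sqrt L + 2) * Real.log (2 * L + 1) + 3 / 2 * L / l) := by rw [Real.exp_add]
    _ ≤ Real.exp (2 * L / l) := by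
        apply Real.exp_le_exp.2
        have h9 : (Real.sqrt L + 2) * Real.log (2 * L + 1) ≤ 1 / 2 * L / l := by
          rw [le_div_iff₀ (by linarith)]
          exact h2
        have h10 : 2 * L / l = 1 / 2 * L / l + 3 / 2 * L / l := by ring
        linarith

end Pool.Agent.V11272.EK
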