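import Mathlib
import Pool.Agent.V11272.EK.Crt
import Pool.Agent.V11272.EK.Div

set_option autoImplicit false

/-!
# The least `k` with `k ^ n - 1` coprime to `2 ^ n - 1`
-/

namespace Pool.Agent.V11272.EK

open Finset Filter

/-- the odd primes `p` with `p - 1 ∣ n` -/
def Qs (n : ℕ) : Finset ℕ := (range (n + 2)).filter (fun p => p.Prime ∧ p ≠ 2 ∧ (p - 1) ∣ n)

/-- their product -/
def Q (n : ℕ) : ℕ := ∏ p ∈ Qs n, p

/-- the other primes dividing `2 ^ n - 1` -/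
def Ss (n : ℕ) : Finset ℕ := (2 ^ n - 1).primeFactors.filter (fun p => ¬ (p - 1) ∣ n)

/-- the bad residues -/
def B (n p m : ℕ) : Prop := (Q n * m) ^ n ≡ 1 [MOD p]

theorem B_per (n p : ℕ) : Per (B n p) p := by
  intro m
  unfold B
  have h : (Q n * m) ^ n ≡ (Q n * (m % p)) ^ n [MOD p] :=
    Nat.ModEq.pow n (Nat.ModEq.mul_left _ (Nat.mod_modEq m p).symm)
  exact ⟨fun h1 => h.symm.trans h1, fun h1 => h.trans h1⟩

theorem mem_Ss {n p : ℕ} : p ∈ Ss n ↔ (p.Prime ∧ p ∣ 2 ^ n - 1 ∧ 2 ^ n - 1 ≠ 0) ∧ ¬ (p - 1) ∣ n := by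
  unfold Ss
  rw [Finset.mem_filter, Nat.mem_primeFactors]

theorem not_dvd_Q {n p : ℕ} (hp : p.Prime) (h : ¬ (p - 1) ∣ n) : ¬ p ∣ Q n := by
  intro hd
  unfold Q at hd
  rw [Prime.dvd_finsetProd_iff hp.prime] at hd
  obtain ⟨q, hq, hpq⟩ := hd
  unfold Qs at hq
  rw [Finset.mem_filter] at hq
  have : p = q := (Nat.prime_dvd_prime_iff_eq hp hq.2.1).1 hpq
  subst this
  exact h hq.2.2.2

theorem cnt_B_le {n p : ℕ} (hn : n ≠ 0) (hp : p.Prime) (h : ¬ (p - 1) ∣ n) :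
    cnt (B n p) p ≤ Nat.gcd n (p - 1) := by
  classical
  have : Fact p.Prime := ⟨hp⟩
  set d := Nat.gcd n (p - 1) with hd
  have hd0 : 0 < d := Nat.gcd_pos_of_pos_left _ (Nat.pos_of_ne_zero hn)
  have hQ : (Q n : ZMod p) ≠ 0 := by
    intro h1
    rw [ZMod.natCast_eq_zero_iff] at h1
    exact not_dvd_Q hp h h1
  rw [cnt_eq]
  have h1 : ((range p).filter (B n p)).card ≤
      (Polynomial.nthRootsFinset d (1 : ZMod p)).card := by
    apply Finset.card_le_card_of_injOn (fun m => ((Q n * m : ℕ) : ZMod p))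
    · intro m hm
      rw [Finset.mem_coe, Finset.mem_filter] at hm
      rw [Finset.mem_coe, Polynomial.mem_nthRootsFinset hd0]
      have h2 : ((Q n * m : ℕ) : ZMod p) ^ n = 1 := by
        have := (ZMod.natCast_eq_natCast_iff _ _ p).2 hm.2
        push_cast at this
        push_cast
        exact this
      have h3 : ((Q n * m : ℕ) : ZMod p) ≠ 0 := by
        intro h4
        rw [h4, zero_pow hn] at h2
        exact zero_ne_one h2
      have h5 := ZMod.pow_card_sub_one_eq_one h3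
      exact pow_gcd_eq_one.2 ⟨h2, h5⟩
    · intro a ha b hb hab
      rw [Finset.mem_coe, Finset.mem_filter, Finset.mem_range] at ha hb
      have h2 : ((Q n * a : ℕ) : ZMod p) = ((Q n * b : ℕ) : ZMod p) := hab
      push_cast at h2
      have h3 : (a : ZMod p) = (b : ZMod p) := mul_left_cancel₀ hQ h2
      rw [ZMod.natCast_eq_natCast_iff] at h3
      exact Nat.ModEq.eq_of_lt_of_lt h3 ha.1 hb.1
  refine h1.trans ?_
  unfold Polynomial.nthRootsFinset
  exact (@Multiset.toFinset_card_le _ (Classical.decEq _) _).trans (Polynomial.card_nthRoots d 1)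

theorem gcd_lt {n p : ℕ} (hp : p.Prime) (h : ¬ (p - 1) ∣ n) : 2 * Nat.gcd n (p - 1) ≤ p - 1 := by
  have h1 : Nat.gcd n (p - 1) ∣ p - 1 := Nat.gcd_dvd_right _ _
  obtain ⟨r, hr⟩ := h1
  have h0 : 0 < p - 1 := by have := hp.two_le; omega
  rcases Nat.lt_or_ge r 2 with h2 | h2
  · exfalso
    interval_cases r
    · rw [hr] at h0; simp at h0
    · apply h
      rw [hr, mul_one]
      have := Nat.gcd_dvd_left n (p - 1)
      exact this
  · calc 2 * Nat.gcd n (p - 1) = Nat.gcd n (p - 1) * 2 := by ring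
      _ ≤ Nat.gcd n (p - 1) * r := Nat.mul_le_mul_left _ h2
      _ = p - 1 := hr.symm

/-- the index -/
def rr (n p : ℕ) : ℕ := (p - 1) / Nat.gcd n (p - 1)

theorem rr_spec {n p : ℕ} : Nat.gcd n (p - 1) * rr n p = p - 1 :=
  Nat.mul_div_cancel' (Nat.gcd_dvd_right _ _)

theorem card_primeFactors_le (m : ℕ) (hm : m ≠ 0) : 2 ^ m.primeFactors.card ≤ m := by
  calc 2 ^ m.primeFactors.card = ∏ p ∈ m.primeFactors, 2 := by rw [Finset.prod_const]
    _ ≤ ∏ p ∈ m.primeFactors, p := by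
        apply Finset.prod_le_prod'
        intro p hp
        exact (Nat.prime_of_mem_primeFactors hp).two_le
    _ ≤ m := Nat.le_of_dvd (Nat.pos_of_ne_zero hm) (Nat.prod_primeFactors_dvd m)

theorem card_Ss_le (n : ℕ) : (Ss n).card ≤ n := by
  rcases Nat.eq_zero_or_pos n with h0 | h0
  · subst h0
    simp [Ss]
  have hm : 2 ^ n - 1 ≠ 0 := by
    have : 2 ^ 1 ≤ 2 ^ n := Nat.pow_le_pow_right (by norm_num) h0
    omega
  have h1 : (Ss n).card ≤ (2 ^ n - 1).primeFactors.card :=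
    Finset.card_le_card (Finset.filter_subset _ _)
  have h2 := card_primeFactors_le _ hm
  have h3 : 2 ^ (2 ^ n - 1).primeFactors.card < 2 ^ n := by omega
  have h4 := (Nat.pow_lt_pow_iff_right (by norm_num : 1 < 2)).1 h3
  omega

/-- the relative size of the bad set -/
noncomputable def y (n p : ℕ) : ℝ := (cnt (B n p) p : ℝ) / p

theorem y_le {n p : ℕ} (hn : n ≠ 0) (hp : p ∈ Ss n) : y n p ≤ 1 / (rr n p : ℝ) := by
  rw [mem_Ss] at hp
  obtain ⟨⟨hpp, -, -⟩, hd⟩ := hp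
  have h1 := cnt_B_le hn hpp hd
  have h2 : Nat.gcd n (p - 1) * rr n p = p - 1 := rr_spec
  have h0 : 0 < p - 1 := by have := hpp.two_le; omega
  have hr : 0 < rr n p := by
    rcases Nat.eq_zero_or_pos (rr n p) with h | h
    · rw [h] at h2; omega
    · exact h
  have hr' : (0 : ℝ) < rr n p := by exact_mod_cast hr
  have hp' : (0 : ℝ) < p := by exact_mod_cast hpp.pos
  unfold y
  rw [div_le_div_iff₀ hp' hr', one_mul]
  have h3 : cnt (B n p) p * rr n p ≤ p := by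
    calc cnt (B n p) p * rr n p ≤ Nat.gcd n (p - 1) * rr n p := Nat.mul_le_mul_right _ h1
      _ = p - 1 := h2
      _ ≤ p := Nat.sub_le _ _
  exact_mod_cast h3

theorem y_half {n p : ℕ} (hn : n ≠ 0) (hp : p ∈ Ss n) : y n p ≤ 1 / 2 := by
  have h := hp
  rw [mem_Ss] at hp
  obtain ⟨⟨hpp, -, -⟩, hd⟩ := hp
  have h1 := cnt_B_le hn hpp hd
  have h2 := gcd_lt hpp hd
  have hp' : (0 : ℝ) < p := by exact_mod_cast hpp.pos
  unfold y
  rw [div_le_div_iff₀ hp' (by norm_num)]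
  have h3 : cnt (B n p) p * 2 ≤ 1 * p := by omega
  exact_mod_cast h3

/-- the sum of the densities -/
theorem sum_y_le {n : ℕ} (hn : 2 ≤ n) :
    ∑ p ∈ Ss n, y n p ≤ (n.divisors.card : ℝ) * (1 + 2 * Real.log n) + 1 := by
  have hn0 : n ≠ 0 := by omega
  have hnr : (0 : ℝ) < n := by exact_mod_cast (by omega : 0 < n)
  rw [← Finset.sum_filter_add_sum_filter_not (Ss n) (fun p => rr n p ≤ n ^ 2)]
  have hA : ∑ p ∈ Ss n with rr n p ≤ n ^ 2, y n p ≤
      (n.divisors.card : ℝ) * (1 + 2 * Real.log n) := by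
    have h1 : ∑ p ∈ Ss n with rr n p ≤ n ^ 2, y n p ≤
        ∑ p ∈ Ss n with rr n p ≤ n ^ 2, 1 / (rr n p : ℝ) := by
      apply Finset.sum_le_sum
      intro p hp
      rw [Finset.mem_filter] at hp
      exact y_le hn0 hp.1
    refine h1.trans ?_
    have h2 : ∑ p ∈ Ss n with rr n p ≤ n ^ 2, 1 / (rr n p : ℝ) ≤
        ∑ x ∈ n.divisors ×ˢ (Icc 1 (n ^ 2)), 1 / (x.2 : ℝ) := by
      have h3 : ∑ p ∈ Ss n with rr n p ≤ n ^ 2, 1 / (rr n p : ℝ) =
          ∑ x ∈ ((Ss n).filter (fun p => rr n p ≤ n ^ 2)).image (fun p => (Nat.gcd n (p - 1), rr n p)),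
            1 / (x.2 : ℝ) := by
        rw [Finset.sum_image]
        intro p hp q hq hpq
        rw [Finset.mem_coe, Finset.mem_filter, mem_Ss] at hp hq
        rw [Prod.mk.injEq] at hpq
        have e1 : Nat.gcd n (p - 1) * rr n p = p - 1 := rr_spec
        have e2 : Nat.gcd n (q - 1) * rr n q = q - 1 := rr_spec
        rw [hpq.1, hpq.2, e2] at e1
        have := hp.1.1.1.two_le
        have := hq.1.1.1.two_le
        omega
      rw [h3]
      apply Finset.sum_le_sum_of_subset_of_nonneg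
      · intro x hx
        rw [Finset.mem_image] at hx
        obtain ⟨p, hp, rfl⟩ := hx
        rw [Finset.mem_filter, mem_Ss] at hp
        rw [Finset.mem_product, Nat.mem_divisors, Finset.mem_Icc]
        refine ⟨⟨Nat.gcd_dvd_left _ _, hn0⟩, ?_, hp.2⟩
        have e1 : Nat.gcd n (p - 1) * rr n p = p - 1 := rr_spec
        have := hp.1.1.1.two_le
        show 1 ≤ rr n p
        rcases Nat.eq_zero_or_pos (rr n p) with h | h
        · rw [h] at e1; omega
        · exact h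
      · intro x _ _
        positivity
    refine h2.trans ?_
    rw [Finset.sum_product]
    simp only [Finset.sum_const, nsmul_eq_mul]
    apply mul_le_mul_of_nonneg_left _ (Nat.cast_nonneg _)
    have h4 := harmonic_le_one_add_log (n ^ 2)
    rw [harmonic_eq_sum_Icc] at h4
    push_cast at h4
    rw [Real.log_pow] at h4
    have h5 : ∑ i ∈ Icc 1 (n ^ 2), 1 / (i : ℝ) = ∑ i ∈ Icc 1 (n ^ 2), (i : ℝ)⁻¹ := by
      apply Finset.sum_congr rfl
      intro i _
      rw [one_div]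
    rw [h5]
    push_cast at h4
    exact h4
  have hB : ∑ p ∈ Ss n with ¬ rr n p ≤ n ^ 2, y n p ≤ 1 := by
    have h1 : ∑ p ∈ Ss n with ¬ rr n p ≤ n ^ 2, y n p ≤
        ∑ p ∈ Ss n with ¬ rr n p ≤ n ^ 2, 1 / (n : ℝ) := by
      apply Finset.sum_le_sum
      intro p hp
      rw [Finset.mem_filter] at hp
      refine (y_le hn0 hp.1).trans ?_
      apply one_div_le_one_div_of_le hnr
      have h2 : n ≤ rr n p := by
        have : n ≤ n ^ 2 := by nlinarith
        omega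
      exact_mod_cast h2
    refine h1.trans ?_
    rw [Finset.sum_const, nsmul_eq_mul, mul_one_div, div_le_one hnr]
    have h2 : ((Ss n).filter (fun p => ¬ rr n p ≤ n ^ 2)).card ≤ n :=
      (Finset.card_le_card (Finset.filter_subset _ _)).trans (card_Ss_le n)
    exact_mod_cast h2
  linarith

theorem one_sub_ge {x : ℝ} (h0 : 0 ≤ x) (h1 : x ≤ 1 / 2) : Real.exp (-(2 * x)) ≤ 1 - x := by
  have h2 : 1 / (1 - x) ≤ Real.exp (2 * x) := by
    have h3 := Real.add_one_le_exp (2 * x)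
    have h4 : 1 / (1 - x) ≤ 2 * x + 1 := by
      rw [div_le_iff₀ (by linarith)]
      nlinarith
    linarith
  rw [Real.exp_neg]
  rw [div_le_iff₀ (by linarith)] at h2
  rw [inv_le_comm₀ (Real.exp_pos _) (by linarith), ← one_div, div_le_iff₀ (by linarith)]
  exact h2

theorem prod_ge {s : Finset ℕ} {x : ℕ → ℝ} (h0 : ∀ i ∈ s, 0 ≤ x i) (h1 : ∀ i ∈ s, x i ≤ 1 / 2) :
    Real.exp (-(2 * ∑ i ∈ s, x i)) ≤ ∏ i ∈ s, (1 - x i) := by
  rw [Finset.mul_sum, ← Finset.sum_neg_distrib, Real.exp_sum]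
  apply Finset.prod_le_prod
  · intro i _; positivity
  · intro i hi
    exact one_sub_ge (h0 i hi) (h1 i hi)

/-- the sieve: there is a good `m` -/
theorem exists_good {n : ℕ} (hn : 2 ≤ n) {Z : ℝ} (hZ1 : 1 ≤ Z) (hZ : ∑ p ∈ Ss n, y n p ≤ Z)
    {h M : ℕ} (hh : 8 * Z + 1 ≤ 2 * h)
    (hM : (2 + (n : ℝ) ^ (4 * h)) * (2 * Real.exp (2 * Z)) ≤ M) :
    ∃ m : ℕ, 1 ≤ m ∧ m < M ∧ ∀ p ∈ Ss n, ¬ B n p m := by
  classical
  have hn0 : n ≠ 0 := by omega
  have hnr : (0 : ℝ) < n := by exact_mod_cast (by omega : 0 < n)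
  have hbr := brun (Ss n) (fun p hp => (mem_Ss.1 hp).1.1) (B n) (fun p _ => B_per n p)
    (fun p hp => by
      have h1 := cnt_B_le hn0 (mem_Ss.1 hp).1.1 (mem_Ss.1 hp).2
      have h2 := gcd_lt (mem_Ss.1 hp).1.1 (mem_Ss.1 hp).2
      omega) h M
  have hy0 : ∀ p ∈ Ss n, 0 ≤ y n p := fun p _ => by unfold y; positivity
  have hprod : Real.exp (-(2 * Z)) ≤ ∏ p ∈ Ss n, (1 - (cnt (B n p) p : ℝ) / p) := by
    refine le_trans ?_ (prod_ge (x := y n) hy0 (fun p hp => y_half hn0 hp))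
    apply Real.exp_le_exp.2
    linarith
  have hS0 : 0 ≤ ∑ p ∈ Ss n, y n p := Finset.sum_nonneg hy0
  have hes : es (fun p => (cnt (B n p) p : ℝ) / p) (Ss n) (2 * h) ≤ Real.exp (-(2 * Z)) / 2 := by
    have h1 := es_le (x := y n) hy0 (2 * h)
    have h2 : (∑ p ∈ Ss n, y n p) ^ (2 * h) / ((2 * h).factorial : ℝ) ≤
        Z ^ (2 * h) / ((2 * h).factorial : ℝ) := by
      apply div_le_div_of_nonneg_right _ (by positivity)
      exact pow_le_pow_left₀ hS0 hZ _
    have h3 := Real.pow_div_factorial_le_exp (Real.exp 1 * Z) (by positivity) (2 * h)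
    rw [mul_pow, mul_div_assoc, ← Real.exp_nat_mul] at h3
    have h4 : Z ^ (2 * h) / ((2 * h).factorial : ℝ) ≤ Real.exp (Real.exp 1 * Z - (2 * h : ℕ)) := by
      rw [Real.exp_sub, le_div_iff₀ (Real.exp_pos _), mul_comm]
      simpa using h3
    have h5 : Real.exp (Real.exp 1 * Z - (2 * h : ℕ)) ≤ Real.exp (-(2 * Z) - 1) := by
      apply Real.exp_le_exp.2
      have h6 : Real.exp 1 < 2.7182818286 := Real.exp_one_lt_d9
      push_cast
      nlinarith
    have h6 : Real.exp (-(2 * Z) - 1) ≤ Real.exp (-(2 * Z)) / 2 := by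
      rw [Real.exp_sub]
      apply div_le_div_of_nonneg_left (Real.exp_pos _).le (by norm_num)
      have := Real.add_one_le_exp (1 : ℝ)
      linarith
    exact h1.trans (h2.trans (h4.trans (h5.trans h6)))
  have herr : ∑ j ∈ range (2 * h), es (fun p => (cnt (B n p) p : ℝ)) (Ss n) j ≤ (n : ℝ) ^ (4 * h) := by
    have hT : ∑ p ∈ Ss n, (cnt (B n p) p : ℝ) ≤ (n : ℝ) ^ 2 := by
      have h1 : ∑ p ∈ Ss n, (cnt (B n p) p : ℝ) ≤ ∑ p ∈ Ss n, (n : ℝ) := by
        apply Finset.sum_le_sum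
        intro p hp
        have h1 := cnt_B_le hn0 (mem_Ss.1 hp).1.1 (mem_Ss.1 hp).2
        have h2 : Nat.gcd n (p - 1) ≤ n := Nat.gcd_le_left _ (by omega)
        exact_mod_cast h1.trans h2
      refine h1.trans ?_
      rw [Finset.sum_const, nsmul_eq_mul, sq]
      apply mul_le_mul_of_nonneg_right _ hnr.le
      exact_mod_cast card_Ss_le n
    have hT0 : 0 ≤ ∑ p ∈ Ss n, (cnt (B n p) p : ℝ) := by positivity
    have h2 : ∀ j ∈ range (2 * h), es (fun p => (cnt (B n p) p : ℝ)) (Ss n) j ≤ ((n : ℝ) ^ 2) ^ j := by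
      intro j _
      refine (es_le (x := fun p => (cnt (B n p) p : ℝ)) (fun p _ => Nat.cast_nonneg _) j).trans ?_
      refine (div_le_self (by positivity) ?_).trans (pow_le_pow_left₀ hT0 hT j)
      exact_mod_cast Nat.one_le_iff_ne_zero.2 (Nat.factorial_ne_zero j)
    refine (Finset.sum_le_sum h2).trans ?_
    have h3 : (2 : ℝ) ≤ (n : ℝ) ^ 2 := by
      have : (2 : ℝ) ≤ n := by exact_mod_cast hn
      nlinarith
    have h4 : ∀ N : ℕ, ∑ j ∈ range N, ((n : ℝ) ^ 2) ^ j ≤ ((n : ℝ) ^ 2) ^ N := by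
      intro N
      induction N with
      | zero => simp
      | succ N ih =>
        rw [Finset.sum_range_succ, pow_succ ((n : ℝ) ^ 2) N]
        have : 0 < ((n : ℝ) ^ 2) ^ N := by positivity
        nlinarith
    refine (h4 _).trans (le_of_eq ?_)
    rw [← pow_mul]
    congr 1
    ring
  have hcnt : (2 : ℝ) ≤ cnt (fun m => ∀ p ∈ Ss n, ¬ B n p m) M := by
    have h1 : (M : ℝ) * (Real.exp (-(2 * Z)) / 2) ≤
        (M : ℝ) * (∏ p ∈ Ss n, (1 - (cnt (B n p) p : ℝ) / p) -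
          es (fun p => (cnt (B n p) p : ℝ) / p) (Ss n) (2 * h)) := by
      apply mul_le_mul_of_nonneg_left _ (Nat.cast_nonneg _)
      linarith
    have h2 : 2 + (n : ℝ) ^ (4 * h) ≤ (M : ℝ) * (Real.exp (-(2 * Z)) / 2) := by
      have h3 : (2 + (n : ℝ) ^ (4 * h)) * (2 * Real.exp (2 * Z)) * (Real.exp (-(2 * Z)) / 2) ≤
          M * (Real.exp (-(2 * Z)) / 2) := mul_le_mul_of_nonneg_right hM (by positivity)
      have h4 : (2 + (n : ℝ) ^ (4 * h)) * (2 * Real.exp (2 * Z)) * (Real.exp (-(2 * Z)) / 2) =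
          2 + (n : ℝ) ^ (4 * h) := by
        rw [Real.exp_neg]
        field_simp
      linarith
    linarith
  have hcnt' : 2 ≤ cnt (fun m => ∀ p ∈ Ss n, ¬ B n p m) M := by exact_mod_cast hcnt
  rw [cnt_eq] at hcnt'
  obtain ⟨a, ha, b, hb, hab⟩ := Finset.one_lt_card.1 (by omega :
    1 < ((range M).filter (fun m => ∀ p ∈ Ss n, ¬ B n p m)).card)
  rw [Finset.mem_filter, Finset.mem_range] at ha hb
  rcases Nat.eq_zero_or_pos a with h1 | h1
  · exact ⟨b, by omega, hb.1, hb.2⟩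
  · exact ⟨a, h1, ha.1, ha.2⟩

theorem Q_pos (n : ℕ) : 0 < Q n := by
  unfold Q Qs
  apply Finset.prod_pos
  intro p hp
  rw [Finset.mem_filter] at hp
  exact hp.2.1.pos

/-- a good `m` gives an admissible `k` -/
theorem good_k {n m : ℕ} (hn : 2 ≤ n) (hm : 1 ≤ m) (hg : ∀ p ∈ Ss n, ¬ B n p m) :
    2 ≤ Q n * m ∧ Nat.Coprime ((Q n * m) ^ n - 1) (2 ^ n - 1) := by
  have hQ := Q_pos n
  have h2n : 4 ≤ 2 ^ n := by
    calc 4 = 2 ^ 2 := by norm_num
      _ ≤ 2 ^ n := Nat.pow_le_pow_right (by norm_num) hn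
  have hne : 2 ^ n - 1 ≠ 0 := by omega
  have hodd : ∀ p : ℕ, p.Prime → p ∣ 2 ^ n - 1 → p ≠ 2 := by
    rintro p hp hd rfl
    have h1 : 2 ∣ 2 ^ n := dvd_pow_self 2 (by omega)
    have h2 := (Nat.dvd_sub_iff_right (by omega : 1 ≤ 2 ^ n) h1).1 hd
    omega
  have hle : ∀ p : ℕ, p.Prime → p ∣ 2 ^ n - 1 → (p - 1) ∣ n → p ∈ Qs n := by
    intro p hp hd h1
    unfold Qs
    rw [Finset.mem_filter, Finset.mem_range]
    refine ⟨?_, hp, hodd p hp hd, h1⟩
    have := Nat.le_of_dvd (by omega) h1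
    omega
  constructor
  · -- `Q n * m ≠ 1`
    by_contra hlt
    have h1 : Q n * m = 1 := by
      have : 0 < Q n * m := Nat.mul_pos hQ (by omega)
      omega
    obtain ⟨p, hp, hd⟩ := Nat.exists_prime_and_dvd (by omega : 2 ^ n - 1 ≠ 1)
    by_cases h3 : (p - 1) ∣ n
    · have h4 := hle p hp hd h3
      have h5 : p ∣ Q n := Finset.dvd_prod_of_mem _ h4
      have h6 : p ∣ 1 := by rw [← h1]; exact Dvd.dvd.mul_right h5 m
      exact hp.one_lt.ne' (Nat.dvd_one.1 h6)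
    · have h4 : p ∈ Ss n := mem_Ss.2 ⟨⟨hp, hd, hne⟩, h3⟩
      apply hg p h4
      unfold B
      rw [h1, one_pow]
  · rw [Nat.coprime_iff_gcd_eq_one]
    by_contra hgcd
    obtain ⟨p, hp, hd⟩ := Nat.exists_prime_and_dvd hgcd
    have hd1 := hd.trans (Nat.gcd_dvd_left _ _)
    have hd2 := hd.trans (Nat.gcd_dvd_right _ _)
    have hk1 : 1 ≤ (Q n * m) ^ n := Nat.one_le_pow _ _ (Nat.mul_pos hQ (by omega))
    by_cases h3 : (p - 1) ∣ n
    · have h4 := hle p hp hd2 h3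
      have h5 : p ∣ Q n := Finset.dvd_prod_of_mem _ h4
      have h6 : p ∣ (Q n * m) ^ n := dvd_pow (Dvd.dvd.mul_right h5 m) (by omega)
      have h7 := (Nat.dvd_sub_iff_right hk1 h6).1 hd1
      exact hp.one_lt.ne' (Nat.dvd_one.1 h7)
    · have h4 : p ∈ Ss n := mem_Ss.2 ⟨⟨hp, hd2, hne⟩, h3⟩
      apply hg p h4
      unfold B
      exact ((Nat.modEq_iff_dvd' hk1).2 hd1).symm

theorem card_Qs_le {n : ℕ} (hn : n ≠ 0) : (Qs n).card ≤ n.divisors.card := by
  apply Finset.card_le_card_of_injOn (fun p => p - 1)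
  · intro p hp
    unfold Qs at hp
    rw [Finset.mem_coe, Finset.mem_filter] at hp
    rw [Finset.mem_coe, Nat.mem_divisors]
    exact ⟨hp.2.2.2, hn⟩
  · intro p hp q hq hpq
    unfold Qs at hp hq
    rw [Finset.mem_coe, Finset.mem_filter] at hp hq
    have h1 : p - 1 = q - 1 := hpq
    have := hp.2.1.two_le
    have := hq.2.1.two_le
    omega

theorem Q_le {n : ℕ} (hn : n ≠ 0) : Q n ≤ (n + 1) ^ n.divisors.card := by
  unfold Q
  calc ∏ p ∈ Qs n, p ≤ ∏ p ∈ Qs n, (n + 1) := by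
        apply Finset.prod_le_prod'
        intro p hp
        unfold Qs at hp
        rw [Finset.mem_filter, Finset.mem_range] at hp
        omega
    _ = (n + 1) ^ (Qs n).card := by rw [Finset.prod_const]
    _ ≤ (n + 1) ^ n.divisors.card := Nat.pow_le_pow_right (by omega) (card_Qs_le hn)

/-- **Main bound.** -/
theorem exists_k {n : ℕ} (hn : 3 ≤ n) : ∃ k : ℕ, 2 ≤ k ∧ Nat.Coprime (k ^ n - 1) (2 ^ n - 1) ∧
    (k : ℝ) ≤ Real.exp (200 * n.divisors.card * Real.log n ^ 2) := by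
  have hn0 : n ≠ 0 := by omega
  set d : ℝ := (n.divisors.card : ℝ) with hd
  have hd1 : 1 ≤ d := by
    rw [hd]
    have : 0 < n.divisors.card := Finset.card_pos.2 ⟨1, Nat.one_mem_divisors.2 hn0⟩
    exact_mod_cast this
  set L : ℝ := Real.log n with hL
  have hnr : (0 : ℝ) < n := by exact_mod_cast (by omega : 0 < n)
  have hL1 : 1 ≤ L := by
    rw [hL, Real.le_log_iff_exp_le hnr]
    have h1 : Real.exp 1 < 2.7182818286 := Real.exp_one_lt_d9
    have h2 : (3 : ℝ) ≤ n := by exact_mod_cast hn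
    linarith
  set Z : ℝ := d * (1 + 2 * L) + 1 with hZ
  have hdL : 1 ≤ d * L := by nlinarith
  have hZ1 : 1 ≤ Z := by nlinarith
  have hZle : Z ≤ 4 * (d * L) := by nlinarith
  set h : ℕ := ⌈5 * Z⌉₊ with hh
  have hh1 : 5 * Z ≤ h := Nat.le_ceil _
  have hh2 : (h : ℝ) < 5 * Z + 1 := Nat.ceil_lt_add_one (by linarith)
  set W : ℝ := (2 + (n : ℝ) ^ (4 * h)) * (2 * Real.exp (2 * Z)) with hW
  obtain ⟨m, hm1, hm2, hm3⟩ := exists_good (n := n) (by omega) hZ1 (sum_y_le (by omega))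
    (h := h) (M := ⌈W⌉₊) (by linarith) (Nat.le_ceil _)
  obtain ⟨hk2, hkc⟩ := good_k (by omega) hm1 hm3
  refine ⟨Q n * m, hk2, hkc, ?_⟩
  have hW0 : 0 < W := by positivity
  have hmW : (m : ℝ) ≤ W := by
    have h1 : (m : ℝ) + 1 ≤ ⌈W⌉₊ := by exact_mod_cast hm2
    have h2 : ((⌈W⌉₊ : ℕ) : ℝ) < W + 1 := Nat.ceil_lt_add_one hW0.le
    linarith
  have hQr : (Q n : ℝ) ≤ Real.exp (d * (2 * L)) := by
    have h1 : (Q n : ℝ) ≤ ((n : ℝ) + 1) ^ n.divisors.card := by exact_mod_cast Q_le hn0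
    refine h1.trans ?_
    have h2 : (n : ℝ) + 1 ≤ Real.exp (2 * L) := by
      rw [two_mul, Real.exp_add, hL, Real.exp_log hnr]
      have : (3 : ℝ) ≤ n := by exact_mod_cast hn
      nlinarith
    calc ((n : ℝ) + 1) ^ n.divisors.card ≤ Real.exp (2 * L) ^ n.divisors.card :=
          pow_le_pow_left₀ (by positivity) h2 _
      _ = Real.exp (d * (2 * L)) := by rw [← Real.exp_nat_mul]
  have hWr : W ≤ Real.exp (2 + 4 * h * L + 2 * Z) := by
    have h1 : (1 : ℝ) ≤ (n : ℝ) ^ (4 * h) := one_le_pow₀ (by exact_mod_cast (by omega : 1 ≤ n))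
    have h2 : (n : ℝ) ^ (4 * h) = Real.exp (4 * h * L) := by
      rw [hL, ← Real.rpow_natCast, Real.rpow_def_of_pos hnr]
      congr 1
      push_cast
      ring
    have h3 : (6 : ℝ) ≤ Real.exp 2 := by
      have h4 : Real.exp 2 = Real.exp 1 * Real.exp 1 := by rw [← Real.exp_add]; norm_num
      have h5 : (2.7182818283 : ℝ) < Real.exp 1 := Real.exp_one_gt_d9
      nlinarith
    rw [Real.exp_add, Real.exp_add, ← h2]
    have h6 : 0 < Real.exp (2 * Z) := Real.exp_pos _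
    calc W = (2 * (2 + (n : ℝ) ^ (4 * h))) * Real.exp (2 * Z) := by rw [hW]; ring
      _ ≤ (6 * (n : ℝ) ^ (4 * h)) * Real.exp (2 * Z) := by
          apply mul_le_mul_of_nonneg_right _ h6.le
          linarith
      _ ≤ (Real.exp 2 * (n : ℝ) ^ (4 * h)) * Real.exp (2 * Z) := by
          apply mul_le_mul_of_nonneg_right _ h6.le
          apply mul_le_mul_of_nonneg_right h3 (by positivity)
  push_cast
  calc (Q n : ℝ) * m ≤ Real.exp (d * (2 * L)) * Real.exp (2 + 4 * h * L + 2 * Z) :=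
        mul_le_mul hQr (hmW.trans hWr) (Nat.cast_nonneg _) (Real.exp_pos _).le
    _ = Real.exp (d * (2 * L) + (2 + 4 * h * L + 2 * Z)) := (Real.exp_add _ _).symm
    _ ≤ Real.exp (200 * d * L ^ 2) := by
        apply Real.exp_le_exp.2
        have a1 : (h : ℝ) * L ≤ (20 * (d * L) + 1) * L := by
          apply mul_le_mul_of_nonneg_right _ (by linarith)
          linarith
        have a2 : d * L ≤ d * L ^ 2 := by nlinarith
        have a3 : 1 ≤ d * L ^ 2 := by nlinarith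
        have a4 : L ≤ d * L ^ 2 := by nlinarith
        nlinarith

end Pool.Agent.V11272.EK
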